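import Pool.Agent.H15.IX.TC

set_option autoImplicit false

open Finset Pool.Agent.H15.IX

namespace Pool.Agent.H49.IX

universe u

/-- the decomposition group -/
private def decG {Ω : Type u} [Field Ω] (O : ValuationSubring Ω) (F : Subfield Ω) :
    Subgroup (Ω ≃ₐ[F] Ω) where
  carrier := {σ | ∀ y, y ∈ O ↔ σ y ∈ O}
  mul_mem' := by
    intro a b ha hb y
    rw [hb y, ha (b y)]
    rfl
  one_mem' := by
    intro y
    rfl
  inv_mem' := by
    intro a ha y
    have h1 := ha (a⁻¹ y)
    have h2 : a (a⁻¹ y) = y := a.apply_symm_apply y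
    rw [h2] at h1
    exact h1.symm

private theorem decG_closed {Ω : Type u} [Field Ω] (O : ValuationSubring Ω) (F : Subfield Ω)
    [Algebra.IsAlgebraic F Ω] : IsClosed (decG O F : Set (Ω ≃ₐ[F] Ω)) := by
  rw [← isOpen_compl_iff, isOpen_iff_forall_mem_open]
  intro σ hσ
  have hσ' : ¬ ∀ y, y ∈ O ↔ σ y ∈ O := hσ
  push Not at hσ'
  obtain ⟨y, hy⟩ := hσ'
  haveI : Algebra.IsIntegral F Ω := inferInstance
  refine ⟨(fun τ : Ω ≃ₐ[F] Ω => σ⁻¹ * τ) ⁻¹' (MulAction.stabilizer (Ω ≃ₐ[F] Ω) y), ?_, ?_, ?_⟩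
  · intro τ hτ hτD
    have h1 : (σ⁻¹ * τ) y = y := hτ
    have h2 : τ y = σ y := by
      have := congrArg σ h1
      rw [AlgEquiv.mul_apply] at this
      rw [← this]
      exact (σ.apply_symm_apply (τ y)).symm
    have h3 : y ∈ O ↔ τ y ∈ O := hτD y
    rw [h2] at h3
    rcases hy with ⟨ha, hb⟩ | ⟨ha, hb⟩
    · exact hb (h3.1 ha)
    · exact ha (h3.2 hb)
  · exact (stabilizer_isOpen_of_isIntegral (K := F) (L := Ω) y).preimage (continuous_const_mul _)
  · change (σ⁻¹ * σ) ∈ MulAction.stabilizer (Ω ≃ₐ[F] Ω) y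
    rw [inv_mul_cancel]
    exact Subgroup.one_mem _

theorem pf_FXD (hHEN : T_HEN.{u}) : T_FXD.{u} := by
  intro Ω _ _ _ O F _
  haveI : CharZero F := (algebraMap F Ω).charZero
  haveI : IsAlgClosure F Ω := ⟨inferInstance, inferInstance⟩
  haveI : IsGalois F Ω := inferInstance
  have hFM : F ≤ (IntermediateField.fixedField (decG O F)).toSubfield := by
    intro x hx
    exact (IntermediateField.fixedField (decG O F)).algebraMap_mem ⟨x, hx⟩
  refine ⟨(IntermediateField.fixedField (decG O F)).toSubfield, hFM, ?_, ?_⟩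
  · letI : Algebra F (IntermediateField.fixedField (decG O F)).toSubfield :=
      (Subfield.inclusion hFM).toAlgebra
    haveI : IsScalarTower F (IntermediateField.fixedField (decG O F)).toSubfield Ω :=
      IsScalarTower.of_algebraMap_eq (fun _ => rfl)
    haveI : Algebra.IsAlgebraic (IntermediateField.fixedField (decG O F)).toSubfield Ω :=
      ⟨fun x => (Algebra.IsAlgebraic.isAlgebraic (R := F) x).tower_top _⟩
    apply hHEN
    intro σ
    have hmem : (AlgEquiv.restrictScalars F σ) ∈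
        (IntermediateField.fixedField (decG O F)).fixingSubgroup := by
      rw [IntermediateField.mem_fixingSubgroup_iff]
      intro x hx
      exact σ.commutes ⟨x, hx⟩
    have hcl := InfiniteGalois.fixingSubgroup_fixedField
      (⟨decG O F, decG_closed O F⟩ : ClosedSubgroup (Ω ≃ₐ[F] Ω))
    have hcl' : (IntermediateField.fixedField (decG O F)).fixingSubgroup = decG O F := hcl
    rw [hcl'] at hmem
    exact hmem
  · intro x
    constructor
    · intro hx σ hσ
      exact hx ⟨σ, hσ⟩
    · intro h σ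
      exact h σ.1 σ.2

end Pool.Agent.H49.IX
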