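import Pool.Agent.H15.IX.TC

set_option autoImplicit false

open Finset Pool.Agent.H15.IX

namespace Pool.Agent.H49.IX

universe u

theorem pf_HRA : T_HRA.{u} := by
  intro Ω _ _ O N M hNM hRac hM x y hx hy
  classical
  letI : Algebra N M := (Subfield.inclusion hNM).toAlgebra
  haveI : IsScalarTower N M Ω := IsScalarTower.of_algebraMap_eq (fun _ => rfl)
  have hxM : IsIntegral M x := hx.tower_top
  refine hM x y hxM ?_
  -- the minimal polynomials agree in `Ω[X]`
  set g := minpoly N x with hg
  set h := minpoly M x with hh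
  have hgm : g.Monic := minpoly.monic hx
  have hhm : h.Monic := minpoly.monic hxM
  have hdvd : h ∣ g.map (algebraMap N M) := minpoly.dvd_map_of_isScalarTower N M x
  have hdvd' : h.map (algebraMap M Ω) ∣ g.map (algebraMap N Ω) := by
    have h1 := Polynomial.map_dvd (algebraMap M Ω) hdvd
    rwa [Polynomial.map_map, ← IsScalarTower.algebraMap_eq] at h1
  have hcoef : ∀ i, ∃ c : N, algebraMap N Ω c = (h.map (algebraMap M Ω)).coeff i := by
    intro i
    have h1 : IsIntegral N ((h.map (algebraMap M Ω)).coeff i) :=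
      Polynomial.isIntegral_coeff_of_dvd g (h.map (algebraMap M Ω)) hgm (hhm.map _) hdvd' i
    have h2 : (h.map (algebraMap M Ω)).coeff i ∈ M := by
      rw [Polynomial.coeff_map]; exact (h.coeff i).2
    exact ⟨⟨_, hRac _ h2 h1⟩, rfl⟩
  obtain ⟨h', hh'⟩ : ∃ h' : Polynomial N, h'.map (algebraMap N Ω) = h.map (algebraMap M Ω) := by
    have : (h.map (algebraMap M Ω)) ∈ Polynomial.lifts (algebraMap N Ω) :=
      (Polynomial.lifts_iff_coeff_lifts _).2 (fun i => by
        obtain ⟨c, hc⟩ := hcoef i
        exact ⟨c, hc⟩)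
    exact (Polynomial.mem_lifts _).1 this
  have hx0 : Polynomial.aeval x h' = 0 := by
    have h1 : Polynomial.aeval x h = 0 := minpoly.aeval M x
    rw [Polynomial.aeval_def, ← Polynomial.eval_map] at h1 ⊢
    rw [hh']; exact h1
  have hgh' : g ∣ h' := minpoly.dvd N x hx0
  have h2 := Polynomial.map_dvd (algebraMap N Ω) hgh'
  rw [hh'] at h2
  obtain ⟨q, hq⟩ := h2
  have hy' : Polynomial.eval y (g.map (algebraMap N Ω)) = 0 := by
    rw [Polynomial.eval_map, ← Polynomial.aeval_def]; exact hy
  rw [Polynomial.aeval_def, ← Polynomial.eval_map, hq, Polynomial.eval_mul, hy', zero_mul]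

end Pool.Agent.H49.IX
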