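import Pool.Agent.H15.IX.TC

set_option autoImplicit false

open Finset Pool.Agent.H15.IX

namespace Pool.Agent.H49.IX

universe u

/-- different exponents give different values -/
private theorem key_ne {Ω : Type u} [Field Ω] {O W : ValuationSubring Ω} {M : Subfield Ω}
    {p : ℕ} {t τ : Ω} (hp : p.Prime) (htM : t ∈ M) (ht0 : t ≠ 0) (hτ : τ ^ p = t)
    (hGd : Gd O p t M) (hW : ∀ x ∈ M, x ∈ W ↔ x ∈ O) {a b : Ω} (ha : a ∈ M) (hb : b ∈ M)
    (ha0 : a ≠ 0) (hb0 : b ≠ 0) {i j : ℕ} (hij : j < i) (hi : i < p) :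
    W.valuation (a * τ ^ i) ≠ W.valuation (b * τ ^ j) := by
  intro heq
  have h1 : W.valuation (a ^ p * t ^ i) = W.valuation (b ^ p * t ^ j) := by
    have h2 : W.valuation (a * τ ^ i) ^ p = W.valuation (b * τ ^ j) ^ p := by rw [heq]
    have h3 : (a * τ ^ i) ^ p = a ^ p * t ^ i := by
      rw [mul_pow, ← pow_mul, mul_comm i p, pow_mul, hτ]
    have h4 : (b * τ ^ j) ^ p = b ^ p * t ^ j := by
      rw [mul_pow, ← pow_mul, mul_comm j p, pow_mul, hτ]
    rwa [← map_pow, ← map_pow, h3, h4] at h2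
  have huM : (a / b) ^ p * t ^ (i - j) ∈ M :=
    M.mul_mem (M.pow_mem (M.div_mem ha hb) p) (M.pow_mem htM _)
  have hWu : W.valuation ((a / b) ^ p * t ^ (i - j)) = 1 := by
    have h5 : a ^ p * t ^ i = ((a / b) ^ p * t ^ (i - j)) * (b ^ p * t ^ j) := by
      have h6 : t ^ i = t ^ (i - j) * t ^ j := by
        rw [← pow_add]; congr 1; omega
      rw [h6, div_pow]
      field_simp
    rw [h5, map_mul] at h1
    have hne : W.valuation (b ^ p * t ^ j) ≠ 0 :=
      (W.valuation.ne_zero_iff).2 (mul_ne_zero (pow_ne_zero _ hb0) (pow_ne_zero _ ht0))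
    exact mul_right_cancel₀ hne (by rw [h1, one_mul])
  have hOu : O.valuation ((a / b) ^ p * t ^ (i - j)) = 1 := by
    have h2 : (a / b) ^ p * t ^ (i - j) ∈ O :=
      (hW _ huM).1 ((W.valuation_le_one_iff _).1 hWu.le)
    have h3 : ((a / b) ^ p * t ^ (i - j))⁻¹ ∈ O :=
      (hW _ (M.inv_mem huM)).1 ((W.valuation_le_one_iff _).1 (by rw [map_inv₀, hWu, inv_one]))
    have h4 : O.valuation ((a / b) ^ p * t ^ (i - j)) ≤ 1 := (O.valuation_le_one_iff _).2 h2
    have h5 := (O.valuation_le_one_iff _).2 h3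
    rw [map_inv₀] at h5
    have h6 : 0 < O.valuation ((a / b) ^ p * t ^ (i - j)) := by
      rw [zero_lt_iff]
      exact (O.valuation.ne_zero_iff).2
        (mul_ne_zero (pow_ne_zero _ (div_ne_zero ha0 hb0)) (pow_ne_zero _ ht0))
    exact le_antisymm h4 ((inv_le_one₀ h6).1 h5)
  have hcop : Nat.Coprime (i - j) p := by
    apply Nat.Coprime.symm
    rw [hp.coprime_iff_not_dvd]
    intro hdvd
    have := Nat.le_of_dvd (by omega) hdvd
    omega
  obtain ⟨m, -, hm⟩ := Nat.exists_mul_mod_eq_one_of_coprime hcop hp.one_lt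
  have hq : (i - j) * m = p * ((i - j) * m / p) + 1 := by
    have := Nat.div_add_mod ((i - j) * m) p
    omega
  have hfM : (a / b) ^ m * t ^ ((i - j) * m / p) ∈ M :=
    M.mul_mem (M.pow_mem (M.div_mem ha hb) _) (M.pow_mem htM _)
  apply hGd _ hfM
  have h7 : t * ((a / b) ^ m * t ^ ((i - j) * m / p)) ^ p =
      ((a / b) ^ p * t ^ (i - j)) ^ m := by
    have e1 : ((a / b) ^ p * t ^ (i - j)) ^ m = (a / b) ^ (p * m) * t ^ ((i - j) * m) := by
      rw [mul_pow, ← pow_mul, ← pow_mul]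
    have e2 : ((a / b) ^ m * t ^ ((i - j) * m / p)) ^ p =
        (a / b) ^ (m * p) * t ^ ((i - j) * m / p * p) := by
      rw [mul_pow, ← pow_mul, ← pow_mul]
    rw [e1, e2, hq, pow_succ, mul_comm m p]
    have e3 : (p * ((i - j) * m / p) + 1) / p * p = p * ((i - j) * m / p) := by
      rw [← hq]; ring
    rw [e3]
    ring
  rw [h7, map_pow, hOu, one_pow]

private theorem key_crit {Ω : Type u} [Field Ω] {O W : ValuationSubring Ω} {M : Subfield Ω}
    {p : ℕ} {t τ : Ω} (hp : p.Prime) (htM : t ∈ M) (ht0 : t ≠ 0) (hτ : τ ^ p = t)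
    (hGd : Gd O p t M) (hW : ∀ x ∈ M, x ∈ W ↔ x ∈ O) {c : ℕ → Ω} (hc : ∀ i, c i ∈ M) :
    (∑ i ∈ range p, c i * τ ^ i) ∈ W ↔ ∀ i ∈ range p, c i ^ p * t ^ i ∈ O := by
  classical
  have hA : ∀ i, c i * τ ^ i ∈ W ↔ c i ^ p * t ^ i ∈ O := by
    intro i
    rw [← hW _ (M.mul_mem (M.pow_mem (hc i) _) (M.pow_mem htM _)), ← W.valuation_le_one_iff,
      ← W.valuation_le_one_iff]
    have h3 : c i ^ p * t ^ i = (c i * τ ^ i) ^ p := by
      rw [mul_pow, ← pow_mul, mul_comm i p, pow_mul, hτ]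
    rw [h3, map_pow]
    exact (pow_le_one_iff_of_nonneg zero_le hp.ne_zero).symm
  have hτ0 : τ ≠ 0 := by
    rintro rfl
    rw [zero_pow hp.ne_zero] at hτ
    exact ht0 hτ.symm
  have hB : (∑ i ∈ range p, c i * τ ^ i) ∈ W ↔ ∀ i ∈ range p, c i * τ ^ i ∈ W := by
    by_cases hall : ∀ i ∈ range p, c i = 0
    · constructor
      · intro _ i hi
        rw [hall i hi, zero_mul]
        exact W.zero_mem
      · intro h
        exact W.toSubring.sum_mem h
    · push Not at hall
      obtain ⟨i₀, hi₀, hci₀⟩ := hall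
      obtain ⟨i₁, hi₁, hmax⟩ := Finset.exists_max_image (range p)
        (fun i => W.valuation (c i * τ ^ i)) ⟨i₀, hi₀⟩
      have hpos : ∀ i, c i ≠ 0 → 0 < W.valuation (c i * τ ^ i) := fun i hi => by
        rw [zero_lt_iff]
        exact (W.valuation.ne_zero_iff).2 (mul_ne_zero hi (pow_ne_zero _ hτ0))
      have hc1 : c i₁ ≠ 0 := by
        intro h
        have h1 := hmax i₀ hi₀
        rw [h, zero_mul, map_zero] at h1
        exact absurd (hpos i₀ hci₀) (not_lt.2 h1)
      have hval : W.valuation (∑ i ∈ range p, c i * τ ^ i) = W.valuation (c i₁ * τ ^ i₁) := by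
        refine W.valuation.map_sum_eq_of_lt hi₁ ?_
        intro i hi
        rw [Finset.mem_sdiff, Finset.mem_singleton] at hi
        by_cases hci : c i = 0
        · rw [hci, zero_mul, map_zero]
          exact hpos i₁ hc1
        · refine lt_of_le_of_ne (hmax i hi.1) ?_
          rcases lt_or_gt_of_ne hi.2 with h | h
          · exact (key_ne hp htM ht0 hτ hGd hW (hc i₁) (hc i) hc1 hci h
              (Finset.mem_range.1 hi₁)).symm
          · exact key_ne hp htM ht0 hτ hGd hW (hc i) (hc i₁) hci hc1 h (Finset.mem_range.1 hi.1)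
      rw [← W.valuation_le_one_iff, hval]
      constructor
      · intro h i hi
        rw [← W.valuation_le_one_iff]
        exact (hmax i hi).trans h
      · intro h
        exact (W.valuation_le_one_iff _).2 (h i₁ hi₁)
  rw [hB]
  exact forall₂_congr fun i _ => hA i

open IntermediateField in
theorem pf_KEY (hCNJ : T_CNJ.{u}) : T_KEY.{u} := by
  intro k Ω _ _ _ _ _ _ O M _ p t τ hRs hkM htM ht0 hp hGd hτ
  classical
  haveI : CharZero Ω := charZero_of_injective_algebraMap (algebraMap k Ω).injective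
  haveI : CharZero M := (algebraMap M Ω).charZero
  haveI : IsAlgClosure M Ω := ⟨inferInstance, inferInstance⟩
  haveI : Normal M Ω := inferInstance
  have hτ0 : τ ≠ 0 := by
    rintro rfl
    rw [zero_pow hp.ne_zero] at hτ
    exact ht0 hτ.symm
  -- the minimal polynomial
  have hirr : Irreducible (Polynomial.X ^ p - Polynomial.C (⟨t, htM⟩ : M)) := by
    apply X_pow_sub_C_irreducible_of_prime hp
    intro b hb
    have hb' : (b : Ω) ^ p = t := congrArg Subtype.val hb
    apply hGd (b : Ω)⁻¹ (M.inv_mem b.2)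
    rw [inv_pow, hb', mul_inv_cancel₀ ht0, map_one]
  have hmonic : (Polynomial.X ^ p - Polynomial.C (⟨t, htM⟩ : M)).Monic :=
    Polynomial.monic_X_pow_sub_C _ hp.ne_zero
  have hmin : minpoly M τ = Polynomial.X ^ p - Polynomial.C (⟨t, htM⟩ : M) := by
    symm
    apply minpoly.eq_of_irreducible_of_monic hirr _ hmonic
    rw [map_sub, map_pow, Polynomial.aeval_X, Polynomial.aeval_C, hτ]
    exact sub_self t
  -- the root of unity
  obtain ⟨ζ, hζ⟩ : ∃ ζ : Ω, IsPrimitiveRoot ζ p := by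
    haveI : NeZero (p : Ω) := ⟨by exact_mod_cast hp.ne_zero⟩
    haveI : NeZero p := ⟨hp.ne_zero⟩
    exact HasEnoughRootsOfUnity.exists_primitiveRoot Ω p
  have hζ1 : ζ ≠ 1 := hζ.ne_one hp.one_lt
  obtain ⟨s0, hs0⟩ : ∃ s0 : Ω ≃ₐ[M] Ω, s0 τ = ζ * τ := by
    apply minpoly.exists_algEquiv_of_root' (Algebra.IsAlgebraic.isAlgebraic τ)
    rw [hmin, map_sub, map_pow, Polynomial.aeval_X, Polynomial.aeval_C, mul_pow, hζ.pow_eq_one,
      one_mul, hτ]
    exact sub_self t
  have hs0M : ∀ x ∈ M, s0 x = x := fun x hx => s0.commutes ⟨x, hx⟩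
  -- the second valuation ring
  have hcomap : O.comap (algebraMap M⟮τ⟯ Ω) =
      (O.comap (s0 : Ω →+* Ω)).comap (algebraMap M⟮τ⟯ Ω) := by
    ext x
    have hxadj : (x : Ω) ∈ Algebra.adjoin M {τ} := by
      rw [← adjoin_simple_toSubalgebra_of_isAlgebraic (Algebra.IsAlgebraic.isAlgebraic τ)]
      exact x.2
    rw [Algebra.adjoin_singleton_eq_range_aeval] at hxadj
    obtain ⟨f, hf⟩ := hxadj
    have hf' : Polynomial.aeval τ f = (x : Ω) := hf
    have hdeg : (f %ₘ minpoly M τ).natDegree < p := by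
      have h1 : (f %ₘ minpoly M τ).natDegree < (minpoly M τ).natDegree := by
        apply Polynomial.natDegree_modByMonic_lt _ (by rw [hmin]; exact hmonic)
        rw [hmin]
        intro h
        have h2 := congrArg Polynomial.natDegree h
        rw [Polynomial.natDegree_X_pow_sub_C, Polynomial.natDegree_one] at h2
        exact hp.ne_zero h2
      rwa [hmin, Polynomial.natDegree_X_pow_sub_C, ← hmin] at h1
    have hx : (x : Ω) = ∑ i ∈ range p, ((f %ₘ minpoly M τ).coeff i : Ω) * τ ^ i := by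
      rw [← hf', ← Polynomial.aeval_modByMonic_eq_self_of_root (q := minpoly M τ)
        (minpoly.aeval M τ), Polynomial.aeval_eq_sum_range' hdeg]
      refine Finset.sum_congr rfl fun i _ => ?_
      rw [Algebra.smul_def]
      rfl
    have c1 := key_crit (W := O) hp htM ht0 hτ hGd (fun _ _ => Iff.rfl)
      (c := fun i => ((f %ₘ minpoly M τ).coeff i : Ω)) (fun i => Subtype.prop _)
    have c2 := key_crit (W := O.comap (s0 : Ω →+* Ω)) hp htM ht0 hτ hGd
      (fun y hy => by
        rw [ValuationSubring.mem_comap]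
        change s0 y ∈ O ↔ y ∈ O
        rw [hs0M y hy])
      (c := fun i => ((f %ₘ minpoly M τ).coeff i : Ω)) (fun i => Subtype.prop _)
    rw [ValuationSubring.mem_comap, ValuationSubring.mem_comap]
    change (x : Ω) ∈ O ↔ (x : Ω) ∈ O.comap (s0 : Ω →+* Ω)
    rw [hx]
    exact c1.trans c2.symm
  obtain ⟨ρ, hρ⟩ := hCNJ M⟮τ⟯ Ω O (O.comap (s0 : Ω →+* Ω)) hcomap
  refine ⟨(AlgEquiv.restrictScalars M ρ).trans s0, ?_, ?_⟩
  · intro x
    exact hρ x
  · have h1 : ρ τ = τ := ρ.commutes (AdjoinSimple.gen M τ)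
    have h2 : ((AlgEquiv.restrictScalars M ρ).trans s0) τ = ζ * τ := by
      change s0 (ρ τ) = ζ * τ
      rw [h1, hs0]
    rw [h2]
    intro h3
    apply hζ1
    have h4 : (ζ - 1) * τ = 0 := by rw [sub_mul, h3, one_mul, sub_self]
    rcases mul_eq_zero.1 h4 with h5 | h5
    · exact sub_eq_zero.1 h5
    · exact absurd h5 hτ0

end Pool.Agent.H49.IX
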