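import Pool.Agent.H15.IX.TC

set_option autoImplicit false

open Finset Pool.Agent.H15.IX

namespace Pool.Agent.H49.IX

universe u

private theorem lt_of_auto {Ω : Type u} [Field Ω] {O : ValuationSubring Ω} {σ : Ω → Ω}
    (h0 : σ 0 = 0) (hinv : ∀ x, σ x⁻¹ = (σ x)⁻¹) (hne : ∀ x, x ≠ 0 → σ x ≠ 0)
    (hσ : ∀ x, x ∈ O ↔ σ x ∈ O) {y : Ω} (hy : O.valuation y < 1) : O.valuation (σ y) < 1 := by
  rcases eq_or_ne y 0 with rfl | hy0
  · rw [h0, map_zero]; exact zero_lt_one
  · by_contra hcon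
    push Not at hcon
    have h1 : O.valuation (σ y)⁻¹ ≤ 1 := by
      rw [map_inv₀]
      exact inv_le_one_of_one_le₀ hcon
    have h2 : (σ y)⁻¹ ∈ O := (O.valuation_le_one_iff _).1 h1
    rw [← hinv, ← hσ] at h2
    have h3 : O.valuation y⁻¹ ≤ 1 := (O.valuation_le_one_iff _).2 h2
    rw [map_inv₀] at h3
    have h4 : 0 < O.valuation y := by
      rw [zero_lt_iff]; exact (O.valuation.ne_zero_iff).2 hy0
    have h5 : 1 ≤ O.valuation y := (inv_le_one₀ h4).1 h3
    exact absurd hy (not_lt.2 h5)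

theorem pf_STR (hKEY : T_KEY.{u}) (hFXD : T_FXD.{u}) : T_STR.{u} := by
  intro k Ω _ _ _ _ _ _ O M _ p t hRs hkM htM ht0 hp hGd hmax
  haveI : CharZero Ω := charZero_of_injective_algebraMap (algebraMap k Ω).injective
  obtain ⟨M₁, hMM₁, hHns, hfix⟩ := hFXD Ω O M
  have hG1 : Gd O p t M₁ := by
    intro f hf h1
    obtain ⟨τ, hτ⟩ := IsAlgClosed.exists_pow_nat_eq t hp.pos
    have hτ0 : τ ≠ 0 := by
      rintro rfl
      rw [zero_pow hp.ne_zero] at hτ
      exact ht0 hτ.symm
    have h2 : O.valuation (τ * f) = 1 := by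
      have h3 : O.valuation (τ * f) ^ p = 1 := by
        rw [← map_pow, mul_pow, hτ, h1]
      exact (pow_eq_one_iff.1 h3).resolve_right hp.ne_zero
    have hmem : τ * f ∈ O := (O.valuation_le_one_iff _).1 h2.le
    obtain ⟨c, hc⟩ := hRs.2 _ hmem
    obtain ⟨σ, hσO, hστ⟩ := hKEY k Ω O M p t τ hRs hkM htM ht0 hp hGd hτ
    have hσf : σ f = f := (hfix f).1 hf σ hσO
    have hσc : σ (algebraMap k Ω c) = algebraMap k Ω c := σ.commutes ⟨_, hkM c⟩
    have hc' : O.valuation (σ (τ * f - algebraMap k Ω c)) < 1 :=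
      lt_of_auto (map_zero σ) (fun x => map_inv₀ σ x)
        (fun x hx => (map_ne_zero σ).2 hx) hσO hc
    rw [map_sub, map_mul, hσf, hσc] at hc'
    have hdiff : O.valuation (σ τ * f - τ * f) < 1 := by
      have h4 : σ τ * f - τ * f = (σ τ * f - algebraMap k Ω c) - (τ * f - algebraMap k Ω c) := by
        ring
      rw [h4]
      exact O.valuation.map_sub_lt hc' hc
    -- the root of unity
    set ζ : Ω := σ τ / τ with hζ
    have hζτ : σ τ = ζ * τ := by rw [hζ, div_mul_cancel₀ _ hτ0]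
    have hζp : ζ ^ p = 1 := by
      have h5 : (σ τ) ^ p = t := by
        rw [← map_pow, hτ]
        exact σ.commutes ⟨t, htM⟩
      rw [hζ, div_pow, h5, hτ, div_self ht0]
    have hζ1 : ζ ≠ 1 := by
      intro h
      rw [h, one_mul] at hζτ
      exact hστ hζτ
    have hζint : IsIntegral k ζ := by
      refine ⟨Polynomial.X ^ p - 1, Polynomial.monic_X_pow_sub_C (1 : k) hp.ne_zero, ?_⟩
      simp [hζp]
    obtain ⟨c', hc'⟩ : ζ ∈ (algebraMap k Ω).range :=
      minpoly.mem_range_of_degree_eq_one k ζ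
        (IsAlgClosed.degree_eq_one_of_irreducible k (minpoly.irreducible hζint))
    have hc1 : c' - 1 ≠ 0 := by
      intro h
      apply hζ1
      rw [← hc', sub_eq_zero.1 h, map_one]
    have hv : O.valuation (ζ - 1) = 1 := by
      have h6 : ζ - 1 = algebraMap k Ω (c' - 1) := by rw [map_sub, map_one, hc']
      have h7 : O.valuation (algebraMap k Ω (c' - 1)) ≤ 1 :=
        (O.valuation_le_one_iff _).2 (hRs.1 _)
      have h8 : O.valuation (algebraMap k Ω (c' - 1)⁻¹) ≤ 1 :=
        (O.valuation_le_one_iff _).2 (hRs.1 _)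
      have h9 : O.valuation (algebraMap k Ω (c' - 1)) *
          O.valuation (algebraMap k Ω (c' - 1)⁻¹) = 1 := by
        rw [← map_mul, ← map_mul, mul_inv_cancel₀ hc1, map_one, map_one]
      rw [h6]
      apply le_antisymm h7
      by_contra hlt
      push Not at hlt
      have := mul_lt_one_of_nonneg_of_lt_one_left zero_le hlt h8
      exact absurd h9 this.ne
    have hfin : σ τ * f - τ * f = (ζ - 1) * (τ * f) := by rw [hζτ]; ring
    rw [hfin, map_mul, hv, h2, one_mul] at hdiff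
    exact lt_irrefl _ hdiff
  have := hmax M₁ hMM₁ hG1
  rw [← this]
  exact hHns

end Pool.Agent.H49.IX
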